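import Pool.Agent.V1121.EM.Ex

set_option autoImplicit false

/-!
# Standard subgroups of even meet involution systems need not be closed under bounded joins

The example is a group of order 16 whose Cayley graph with respect to `S = {a, b, c, d}` is the
4-dimensional cube. The subgroup generated by `I = {a, c}` is dihedral of order 8; the least upper
bound of `a` and `c` is `a d = c b`, which does not lie in it.
-/

namespace Pool.Agent.Results.MP_e25dcb_al.JoinsFail

open Pool.Agent.V1121.EM

/-- **Negative answer to Q2**. -/
theorem result : ∃ (W : Type) (_ : Group W) (S : Set W), IsEMIS S ∧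
    ∃ I : Set W, I ⊆ S ∧ ∃ X : Set W, X ⊆ Subgroup.closure I ∧
      ∃ j : W, IsJoin S X j ∧ j ∉ Subgroup.closure I := by
  refine ⟨G, inferInstance, G.S, G.isEMIS, {G.a, G.c}, ?_, {G.a, G.c}, Subgroup.subset_closure,
    ⟨true, true, true, true⟩, G.isJoin_of ?_, ?_⟩
  · intro s hs
    rcases hs with rfl | rfl
    · exact Or.inl rfl
    · exact Or.inr (Or.inr (Or.inl rfl))
  · intro i
    have h : ∀ i, (G.bit ⟨true, true, true, true⟩ i = true ↔
        (G.bit G.a i = true ∨ G.bit G.c i = true)) := by decide
    rw [h i]
    constructor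
    · rintro (h1 | h1)
      · exact ⟨_, Or.inl rfl, h1⟩
      · exact ⟨_, Or.inr rfl, h1⟩
    · rintro ⟨x, hx, h1⟩
      rcases hx with rfl | rfl
      · exact Or.inl h1
      · exact Or.inr h1
  · intro hm
    have h1 := G.f_zero hm
    exact absurd h1 (by decide)

end Pool.Agent.Results.MP_e25dcb_al.JoinsFail
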