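import Pool.Agent.V1121.EM.Ex

set_option autoImplicit false

/-!
# Standard subgroups of even meet involution systems need not be closed under meets

The example is a group of order 16 whose Cayley graph with respect to `S = {a, b, c, d}` is the
4-dimensional cube. The subgroup generated by `I = {a, c}` is dihedral of order 8; the greatest
lower bound of `a c a` and `c a c` is `b c = d a`, which does not lie in it.
-/

namespace Pool.Agent.Results.MP_e25dcb_al.MeetsFail

open Pool.Agent.V1121.EM

/-- **Negative answer to Q1**. -/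
theorem result : ∃ (W : Type) (_ : Group W) (S : Set W), IsEMIS S ∧
    ∃ I : Set W, I ⊆ S ∧ ∃ X : Set W, X.Nonempty ∧ X ⊆ Subgroup.closure I ∧
      ∃ m : W, IsMeet S X m ∧ m ∉ Subgroup.closure I := by
  refine ⟨G, inferInstance, G.S, G.isEMIS, {G.a, G.c}, ?_, {G.a * G.c * G.a, G.c * G.a * G.c},
    ⟨_, Or.inl rfl⟩, ?_, ⟨false, true, false, true⟩, G.isMeet_of ?_, ?_⟩
  · intro s hs
    rcases hs with rfl | rfl
    · exact Or.inl rfl
    · exact Or.inr (Or.inr (Or.inl rfl))
  · have ha : G.a ∈ Subgroup.closure ({G.a, G.c} : Set G) := Subgroup.subset_closure (Or.inl rfl)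
    have hc : G.c ∈ Subgroup.closure ({G.a, G.c} : Set G) := Subgroup.subset_closure (Or.inr rfl)
    intro x hx
    rcases hx with rfl | rfl
    · exact Subgroup.mul_mem _ (Subgroup.mul_mem _ ha hc) ha
    · exact Subgroup.mul_mem _ (Subgroup.mul_mem _ hc ha) hc
  · intro i
    have h : ∀ i, (G.bit ⟨false, true, false, true⟩ i = true ↔
        (G.bit (G.a * G.c * G.a) i = true ∧ G.bit (G.c * G.a * G.c) i = true)) := by decide
    rw [h i]
    constructor
    · rintro ⟨h1, h2⟩ x hx
      rcases hx with rfl | rfl
      · exact h1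
      · exact h2
    · intro h3
      exact ⟨h3 _ (Or.inl rfl), h3 _ (Or.inr rfl)⟩
  · intro hm
    have h1 := G.f_zero hm
    exact absurd h1 (by decide)

end Pool.Agent.Results.MP_e25dcb_al.MeetsFail
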